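import Pool.Agent.W519.G.Final

/-!
# The de Rham-Betti conjecture for the motives generated by the abelian varieties with complex
# multiplication by abelian fields

Let `X` be a product of abelian varieties over the field of algebraic numbers with complex
multiplication by number fields which are abelian over the rational numbers. We consider all tensor
powers of `h^1(X)` and all their Tate twists, for all such `X`. Then every de Rham-Betti class is a
Hodge class (and so, by a theorem of André, a motivated class) if and only if this holds for the
classes of degree two on the products of two such abelian varieties. The latter is a theorem of
Bost, a consequence of the theorem of Wüstholz.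

The proof: let `L` be a CM field, abelian over the rational numbers with group `G`, which contains
all the fields in question. A de Rham-Betti class gives a monomial in the periods all of whose
conjugates are algebraic. If its type, an odd function on `G`, is not zero, then the ideal of the
rational group ring generated by it contains a nonzero element with coefficients `0, 1, -1`, that
is, the difference of two CM types of `L`. So two abelian varieties with different CM types on `L`
have the same periods up to algebraic factors, and this gives a de Rham-Betti class of degree two
on their product which is not a Hodge class.
-/

namespace Pool.Agent.Results.MP_470b79_ag.AbelianCMTensors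

open Pool.Agent.W519.G Pool.Agent.W547.KB Pool.Agent.W537.PC

/-- For all products `X` of abelian varieties with complex multiplication by abelian fields, all
`n` and `w`, the de Rham-Betti classes of `H^1(X)^{⊗ n}(w)` are the Hodge classes, if and only if the
de Rham-Betti classes of `H^2(A × A')(1)` are Hodge classes, for all `A`, `A'` with complex
multiplication by abelian fields. -/
theorem result (P : Periods) :
    (∀ X : CMAV, (∀ i, IsAbelian (X.factor i).E) → ∀ (n : ℕ) (w : ℤ)
      (f : MultilinearMap ℚ (fun _ : Fin n => X.H1) ℚ), IsDRB P X w f ↔ IsHodgeTensor X w f) ↔
    (∀ A A' : CMPair, IsAbelian A.E → IsAbelian A'.E →
      ∀ f : (two A A').H1 [⋀^Fin 2]→ₗ[ℚ] ℚ, IsDRB P (two A A') 1 f.toMultilinearMap →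
        IsHodgeTensor (two A A') 1 f.toMultilinearMap) :=
  tensors_iff P

end Pool.Agent.Results.MP_470b79_ag.AbelianCMTensors
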