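import Pool.Agent.W544.K3.Iff

/-!
# The de Rham-Betti conjecture for products of K3 surfaces

Let `S_0, ..., S_(N-1)` be K3 surfaces (or hyper-Kaehler varieties) over the algebraic numbers, `T_i`
the transcendental part of `H^2(S_i)(1)` and `T = ⊕ T_i`, of rank `n`.  The structure `Multi n N`
consists of the intersection forms, the classes `ω i` of the holomorphic two-forms and the period
matrix `D` of `T`.  Assume that the algebra of Hodge endomorphisms of every `T_i` is a totally real
field `E_i`, that there are no Hodge morphisms between different `T_i`, and that the dimension of
`T_i` over `E_i` is not `4` or `5` (it is at least `3`).  The hypothesis `hD` (Hodge endomorphisms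
are de Rham-Betti) expresses the inclusion of the torsor of de Rham-Betti periods in the torsor of
motivic periods.

The equality of the two torsors for `⊕ H^2(S_i)(1)` means that `T` is semisimple and that all
de Rham-Betti classes on all tensor powers are Hodge classes.  We prove that it holds as soon as it
holds in degree two: if `T` is semisimple and all de Rham-Betti classes on `T ⊗ T` are Hodge
classes (both facts are known theorems), then

* the Lie algebra of the de Rham-Betti group of `T` contains the real Lie algebras `so(U_i)`, where
  `U_i` is the part of `T_i ⊗ ℝ` on which `E_i` acts as on `ω i`;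
* every de Rham-Betti class on every tensor power of `ℚ^s ⊕ T` is a Hodge class.

In the proof the Lie algebra `h` of the group is first shown to be irreducible on each `U_i` by
means of the derivations of `ℂ`.  If all eigenvalues of all elements of the group had absolute value
one, then the group would be relatively compact by an argument of Burnside and the intersection
form on `U_i` would be definite; so `h` contains a nonzero diagonalisable operator with real
eigenvalues, and the gradings given by such operators show that `h` projects onto `so(U_i)`.  The
last step is the lemma of Goursat: isomorphisms between `so(U_i)` and `so(U_j)` which preserve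
diagonalisable operators come from isometries, and these are excluded by the hypotheses.
-/

open Module

namespace Pool.Agent.Results.MP_470b79_ag.ProductsOfK3Surfaces

open Pool.Agent.W544.K3

/-- For products of K3 surfaces with real multiplication the de Rham-Betti conjecture in all
degrees is equivalent to its part in degree two. -/
theorem result {n N : ℕ} (X : Multi n N) (hD : X.HodgeIsDR) (hR : X.RealMult)
    (hdim : ∀ i, 3 ≤ finrank ℝ (X.U i) ∧ finrank ℝ (X.U i) ≠ 4 ∧ finrank ℝ (X.U i) ≠ 5) :
    (X.Semisimple ∧ ∀ t : (Fin 2 → Fin n) → ℚ, X.IsDRB t → X.IsHodge t) ↔
    (X.Semisimple ∧
      (∀ i, ∀ y : End ℝ (Fin n → ℝ), Skew (bilR X.B) y →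
        (∀ v, (∀ u ∈ X.U i, bilR X.B u v = 0) → y v = 0) → y ∈ X.hT) ∧
      ∀ (s m : ℕ) (t : (Fin m → Fin s ⊕ Fin n) → ℚ), X.IsDRB' t → X.IsHodge' t) :=
  two_iff X hD hR hdim

end Pool.Agent.Results.MP_470b79_ag.ProductsOfK3Surfaces
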